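import Pool.Agent.T9h5.GS.Gen
import Pool.Agent.T9h5.GS.Limit

/-!
# Classes of smooth hypersurfaces: all degrees, and the quadrics over all fields

Let `x_n = ([H_n] - [P^(n-1)]) / L^(n-1)`, `H_n ⊆ P^n` smooth hypersurfaces of degree `d` over a field
`k` of characteristic `0`.

* For every `d ≥ 2` there are fields `k` and sequences `(H_n)` such that `(x_n)` has no limit in the
  completed Grothendieck ring, for instance `k = ℂ(t_0, t_1, ...)`; the sequence of the
  `t_0 x_0^d + ... + t_n x_n^d = 0` does not tend to `0`.
* Quadrics: for every `k` and every sequence of smooth quadrics the limit exists iff the Witt indices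
  tend to infinity, and then it is `0`.

The proof uses, for an extension `K` of `k` whose finite extensions have degree a power of a prime `p`,
the number of Tate summands of the motive of `X_K` with coefficients in `𝔽_p` (`TateCount`). It is
additive (H. Gillet, C. Soulé, Descent, motives and K-theory, 1996), and `0` for varieties without
points over `K`. For the quadrics Hoffmann's theorem is used (D. Hoffmann, Isotropy of quadratic
forms over the function field of a quadric, 1995).
-/

set_option autoImplicit false

namespace Pool.Agent.Results.MP_696f7f_ag.AllDegrees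

open Pool.Agent.T9h5.KV Pool.Agent.T9h5.GS

theorem result :
    -- all fields: hypersurfaces without points over `K`
    (∀ (k K : Type) [Field k] [Field K] [Algebra k K], TateCount k K →
      ∀ F : ∀ n, MvPolynomial (Fin (n + 1)) k, (∀ N, ∃ n, N ≤ n ∧ NoPoints K (F n)) →
        ¬ Tends k (xseq F) 0 ∧
        ((∀ N, ∃ n, N ≤ n ∧ HasPoint K (F n)) → ¬ HasLimit k (xseq F))) ∧
    -- every degree `d ≥ 2`
    (∀ (p : ℕ) [Fact p.Prime] (k : Type) [Field k] [Algebra k (Fld p)] (s : ℕ → k),
      (∀ i, algebraMap k (Fld p) (s i) = mono p i) → TateCount k (Fld p) →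
      ∀ d, 2 ≤ d → p ∣ d →
        (∀ n, IsSmooth d (diagonal s d n)) ∧ ¬ Tends k (xseq (diagonal s d)) 0 ∧
        ∃ F : ∀ n, MvPolynomial (Fin (n + 1)) k,
          (∀ n, IsSmooth d (F n)) ∧ ¬ HasLimit k (xseq F)) ∧
    -- the quadrics over all fields
    (∀ (k : Type) [Field k] [CharZero k],
      (∀ (K : Type) [Field K] [Algebra k K], IsSpecial 2 K → TateCount k K) → Hoffmann k →
      ∀ (w : ℕ → ℕ) (a : ℕ → ℕ → k), (∀ n, 2 * w n ≤ n + 1) →
        (∀ n, Aniso k (a n) (n + 1 - 2 * w n)) →
        (∀ n, IsSmooth 2 (form (a n) n (w n))) ∧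
        (HasLimit k (xseq fun n => form (a n) n (w n)) ↔ ToInfinity w) ∧
        (ToInfinity w → Tends k (xseq fun n => form (a n) n (w n)) 0)) := by
  refine ⟨?_, ?_, ?_⟩
  · intro k K _ _ _ V F h
    exact ⟨not_zero V F h, no_limit V F h⟩
  · intro p _ k _ _ s hs V d hd hpd
    have hck : CharZero k := by
      refine ⟨fun m n hmn => ?_⟩
      have h1 := congrArg (algebraMap k (Fld p)) hmn
      rw [map_natCast, map_natCast] at h1
      exact Nat.cast_injective h1
    have hs0 : ∀ i, s i ≠ 0 := by
      intro i h0
      have h1 := hs i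
      rw [h0, map_zero] at h1
      exact HahnSeries.single_ne_zero one_ne_zero h1.symm
    have hsm : ∀ n, IsSmooth d (diagonal s d n) := fun n =>
      diag_smooth k d n hd (fun i => s i) (fun i => hs0 i)
    have hno : ∀ n, NoPoints (Fld p) (diagonal s d n) := fun n =>
      diagonal_noPoints p s hs d n (by omega) hpd
    refine ⟨hsm, not_zero V _ fun N => ⟨N, le_rfl, hno N⟩, ?_⟩
    classical
    refine ⟨fun n => if Even n then diagonal s d n else real k d n, ?_, ?_⟩
    · intro n
      dsimp only
      split_ifs
      · exact hsm n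
      · apply diag_smooth k d n hd
        intro i
        split_ifs <;> simp
    · apply no_limit V
      · intro N
        refine ⟨2 * N, by omega, ?_⟩
        rw [if_pos (even_two_mul N)]
        exact hno _
      · intro N
        refine ⟨2 * N + 1, by omega, ?_⟩
        rw [if_neg (by rw [Nat.not_even_iff_odd]; exact odd_two_mul_add_one N)]
        exact real_hasPoint d (2 * N) hd
  · intro k _ _ T H w a hw ha
    have ht : ToInfinity w → Tends k (xseq fun n => form (a n) n (w n)) 0 := form_tends a w hw
    refine ⟨fun n => form_smooth two_ne_zero (a n) n (w n) (hw n) fun i hi => coef_ne (ha n) hi,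
      ⟨toInfinity T H w a hw ha, fun h => ⟨0, ?_, ht h⟩⟩, ht⟩
    intro m m' hm b hb
    change _ = (0 : M k ⧸ Fil k m)
    have hb' : (QuotientAddGroup.mk b : M k ⧸ Fil k m') = 0 := hb
    rw [QuotientAddGroup.eq_zero_iff] at hb' ⊢
    have hle : Fil k m' ≤ Fil k m := by
      unfold Fil
      apply AddSubgroup.closure_mono
      rintro x ⟨X, i, D, h1, h2, rfl⟩
      exact ⟨X, i, D, h1, by omega, rfl⟩
    exact hle hb'

end Pool.Agent.Results.MP_696f7f_ag.AllDegrees
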