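import Pool.Agent.T9h5.KV.Even

/-!
# Classes of smooth hypersurfaces in the completed Grothendieck ring: real fields

Let `x_n = ([H_n] - [P^(n-1)]) / L^(n-1)`, `H_n ⊆ P^n` smooth hypersurfaces of degree `d` over a field
`k`. For every even `d` and every subfield `k` of `ℝ` there is a sequence `(H_n)` for which `(x_n)` has
no limit in the completed Grothendieck ring: take `x_0^d + ... + x_n^d = 0` (no real points) for even
`n` and `x_0^d + ... + x_(n-1)^d = x_n^d` for odd `n`. More generally `(x_n)` has no limit if
infinitely many `H_n` have real points and infinitely many do not.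

The proof uses the virtual Poincaré polynomial `β` of real algebraic varieties (C. McCrory,
A. Parusiński, Virtual Betti numbers of real algebraic varieties, C. R. Acad. Sci. Paris 336 (2003)),
which is given here as a structure (`VirtualPoincare`) with those of its properties which are used. Since
`deg β(X) ≤ dim X`, every coefficient of `β(X) u^(-i)` is a continuous function on the completion; the
coefficient of `u^0` in `β(x_n)` is `-1` if `H_n` has no real points and `≥ 0` if it has.

For the quadrics `quad k n w` (over `ℝ` these are, up to a change of coordinates, all smooth quadrics,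
`w` being the Witt index) `(x_n)` converges to `0` iff `w_n → ∞` (the if part is true for every field
of characteristic `≠ 2` and does not use `β`), and a limit exists only if `w_n → ∞` or `w_n` is
eventually constant.
-/

set_option autoImplicit false

namespace Pool.Agent.Results.MP_696f7f_ag.RealHypersurfaces

open Pool.Agent.T9h5.KV

theorem result :
    -- quadrics of index `w_n → ∞`, every field of characteristic `≠ 2`
    (∀ (k : Type) [Field k], (2 : k) ≠ 0 → ∀ w : ℕ → ℕ, (∀ n, 2 * w n ≤ n + 1) →
      (∀ n, IsSmooth 2 (quad k n (w n))) ∧
      (ToInfinity w → Tends k (xseq fun n => quad k n (w n)) 0)) ∧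
    -- subfields of `ℝ`
    (∀ (k : Type) [Field k] [Algebra k ℝ], VirtualPoincare k →
      -- all even degrees: a sequence without limit
      (∀ d, 2 ≤ d → Even d → ∃ F : ∀ n, MvPolynomial (Fin (n + 1)) k,
        (∀ n, IsSmooth d (F n)) ∧ ¬ HasLimit k (xseq F)) ∧
      -- the Fermat hypersurfaces of even degree: `0` is not the limit
      (∀ d, 2 ≤ d → Even d →
        (∀ n, IsSmooth d (fermat k d n)) ∧ ¬ Tends k (xseq (fermat k d)) 0) ∧
      -- all sequences
      (∀ F : ∀ n, MvPolynomial (Fin (n + 1)) k, (∀ N, ∃ n, N ≤ n ∧ NoRealPoints (F n)) →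
        ¬ Tends k (xseq F) 0 ∧
        ((∀ N, ∃ n, N ≤ n ∧ HasRealPoint (F n)) → ¬ HasLimit k (xseq F))) ∧
      -- quadrics
      ∀ w : ℕ → ℕ, (∀ n, 2 * w n ≤ n + 1) →
        (HasLimit k (xseq fun n => quad k n (w n)) → ToInfinity w ∨ EventuallyConstant w) ∧
        (Tends k (xseq fun n => quad k n (w n)) 0 → ToInfinity w)) := by
  refine ⟨?_, ?_⟩
  · intro k _ h2 w hw
    exact ⟨fun n => quad_smooth k h2 n (w n) (hw n), quad_tends w hw⟩
  · intro k _ _ V
    have hk : CharZero k := (algebraMap k ℝ).charZero
    refine ⟨?_, ?_, ?_, ?_⟩
    · intro d hd hd2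
      classical
      refine ⟨fun n => if Even n then fermat k d n else real k d n, ?_, ?_⟩
      · intro n
        dsimp only
        split_ifs
        · exact fermat_smooth k d n hd
        · apply diag_smooth k d n hd
          intro i
          split_ifs <;> simp
      · apply no_limit V
        · intro N
          refine ⟨2 * N, by omega, ?_⟩
          rw [if_pos (even_two_mul N)]
          exact fermat_noReal d _ hd2 hd
        · intro N
          refine ⟨2 * N + 1, by omega, ?_⟩
          rw [if_neg (by rw [Nat.not_even_iff_odd]; exact odd_two_mul_add_one N)]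
          exact real_hasReal d (2 * N) hd
    · intro d hd hd2
      exact ⟨fun n => fermat_smooth k d n hd,
        not_zero V _ fun N => ⟨N, le_rfl, fermat_noReal d _ hd2 hd⟩⟩
    · intro F h
      exact ⟨not_zero V F h, no_limit V F h⟩
    · intro w hw
      exact ⟨quad_limit V w hw, quad_zero V w hw⟩

end Pool.Agent.Results.MP_696f7f_ag.RealHypersurfaces
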